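import Mathlib
import Pool.Agent.Helper99.MD.Final

/-!
# A `D^∞`-derivation of Wiener space which is not a vector field plus `div A grad`

The classical Wiener space is `Path n = C_0([0,1], ℝ^n)` with Wiener measure `P` (`IsWiener P`).
The Ornstein-Uhlenbeck semigroup `ou P t = e^{-tL}` is given by Mehler's formula, the Bessel
potential `bessel P r = (I + L)^{-r/2}` by the Gamma integral, and
`DSp P _ = ⋂_{p > 1, r ≥ 1} (I + L)^{-r/2} L^p(P)` is Watanabe's space `D^∞`, with the topology
given by all the norms `‖(I + L)^{r/2} F‖_p`.  A derivation of `D^∞` is a continuous linear map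
`δ : D^∞ → D^∞` satisfying the Leibniz rule (`Leibniz δ`).

An element of the Cameron-Martin space is given by its density `h ∈ L²([0,1], ℝ^n)`, and an
`H`-valued field by its density, a function on `Path n × [0,1]`.  `IsGrad P F V` says that `V` is
the Malliavin derivative of `F`, `IsDiv P hP u G` that `G = div u`, and `IsSum P hP δ X a` that
`δ F = ⟨grad F, X⟩ + div (a grad F)` for all `F ∈ D^∞` with `a grad F` square integrable.

The theorem says that there is a derivation of `D^∞` which is not of this form, whatever the
square integrable field `X` and the square integrable `n × n` matrix valued process `a`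
(antisymmetric or not).

The derivation is `δ F = lim (F ∘ R_θ - F) / θ`, where `R_θ ω = cos θ • ω + sin θ • Aω` and `A` is
the half shift of the increments of the path; `A² = -1` and the `R_θ` preserve Wiener measure.
-/

set_option autoImplicit false

open MeasureTheory ProbabilityTheory
open scoped ENNReal

namespace Pool.Agent.Results.MP_4215b8_pr.HalfShiftRotation

open Pool.Agent.Helper99.MD

/-- On Wiener space over `ℝ^n`, for every `n ≥ 1`, there is a derivation of `D^∞` which is not the
sum of a (square integrable) vector field and an operator `div a grad` with a (square integrable)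
matrix valued process `a`. -/
theorem result : ∀ n : ℕ, 0 < n → ∀ (P : Measure (Path n)) (hP : IsWiener P),
    ∃ δ : DSp P hP.cg →L[ℝ] DSp P hP.cg, Leibniz δ ∧
      ¬ ∃ (X : Path n × unitInterval → EuclideanSpace ℝ (Fin n))
          (a : Path n × unitInterval → Matrix (Fin n) (Fin n) ℝ),
        MemLp X 2 (P.prod volume) ∧ (∀ i j, MemLp (fun w => a w i j) 2 (P.prod volume)) ∧
          IsSum P hP δ X a :=
  main

end Pool.Agent.Results.MP_4215b8_pr.HalfShiftRotation
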